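import Pool.Agent.H76.MXT.Stmts

set_option autoImplicit false

namespace Pool.MXT

open Set

/-- clamping to an interval -/
noncomputable def LF2_cl (a b x : ℝ) : ℝ := max a (min x b)

theorem LF2_cl_mem {a b : ℝ} (h : a ≤ b) (x : ℝ) : LF2_cl a b x ∈ Icc a b :=
  ⟨le_max_left _ _, max_le h (min_le_right _ _)⟩

theorem LF2_cl_eq {a b x : ℝ} (h : x ∈ Icc a b) : LF2_cl a b x = x := by
  unfold LF2_cl
  rw [min_eq_left h.2, max_eq_right h.1]

theorem LF2_cl_cont (a b : ℝ) : Continuous (LF2_cl a b) := by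
  unfold LF2_cl
  fun_prop

theorem lf2_thm : S_LF2 := by
  intro F a b c d hab hcd hF hZ
  have hmem : ∀ p : ℝ × ℝ, (LF2_cl a b p.1, LF2_cl c d p.2) ∈ Icc a b ×ˢ Icc c d := fun p =>
    ⟨LF2_cl_mem hab p.1, LF2_cl_mem hcd p.2⟩
  have hcont : Continuous (fun p : ℝ × ℝ => F (LF2_cl a b p.1) (LF2_cl c d p.2)) := by
    have h1 : Continuous (fun p : ℝ × ℝ => (LF2_cl a b p.1, LF2_cl c d p.2)) :=
      ((LF2_cl_cont a b).comp continuous_fst).prodMk ((LF2_cl_cont c d).comp continuous_snd)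
    exact hF.comp_continuous h1 hmem
  have hne : ∀ p : ℝ × ℝ, F (LF2_cl a b p.1) (LF2_cl c d p.2) ≠ 0 := fun p =>
    hZ _ (LF2_cl_mem hab p.1) _ (LF2_cl_mem hcd p.2)
  obtain ⟨f, ⟨-, hf⟩, -⟩ := Complex.isCoveringMapOn_exp.existsUnique_continuousMap_lifts
    (A := ℝ × ℝ) ⟨fun p : ℝ × ℝ => F (LF2_cl a b p.1) (LF2_cl c d p.2), hcont⟩
    (a₀ := ((0, 0) : ℝ × ℝ)) (Complex.exp_log (hne (0, 0))) (fun p => hne p)
  refine ⟨fun x y => (f (x, y)).im, ?_, ?_⟩
  · have : Continuous (fun p : ℝ × ℝ => (f (p.1, p.2)).im) :=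
      Complex.continuous_im.comp f.continuous
    exact this.continuousOn
  · intro x hx y hy
    have h1 : Complex.exp (f (x, y)) = F x y := by
      have h2 := congrFun hf (x, y)
      simp only [Function.comp_apply, ContinuousMap.coe_mk] at h2
      rw [LF2_cl_eq hx, LF2_cl_eq hy] at h2
      exact h2
    have h3 : ‖F x y‖ = Real.exp (f (x, y)).re := by
      rw [← h1, Complex.norm_exp]
    rw [h3, Complex.ofReal_exp, ← Complex.exp_add, Complex.re_add_im, h1]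

end Pool.MXT
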