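import Pool.Agent.H76.MXT.Stmts

set_option autoImplicit false

namespace Pool.MXT

open Set

theorem LFU_const {f : ℝ → ℝ} {s t : ℝ} (hst : s ≤ t) (hf : ContinuousOn f (Icc s t))
    (hZ : ∀ x ∈ Icc s t, ∃ n : ℤ, f x = 2 * Real.pi * n) : f t = f s := by
  have hp := Real.pi_pos
  obtain ⟨m, hm⟩ := hZ s ⟨le_rfl, hst⟩
  obtain ⟨n, hn⟩ := hZ t ⟨hst, le_rfl⟩
  by_contra hne
  have hmn : m ≠ n := by
    intro h
    apply hne
    rw [hm, hn, h]
  rcases lt_or_gt_of_ne hmn with h | h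
  · have h1 : m + 1 ≤ n := h
    have h1' : (m : ℝ) + 1 ≤ n := by exact_mod_cast h1
    have hv : 2 * Real.pi * m + Real.pi ∈ Icc (f s) (f t) := by
      rw [hm, hn]
      constructor
      · linarith
      · nlinarith
    obtain ⟨x, hx, hxv⟩ := intermediate_value_Icc hst hf hv
    obtain ⟨k, hk⟩ := hZ x hx
    rw [hk] at hxv
    have h2 : 2 * Real.pi * (2 * ((k : ℝ) - m) - 1) = 0 := by linarith
    have h3 : 2 * ((k : ℝ) - m) - 1 = 0 := by
      rcases mul_eq_zero.mp h2 with h4 | h4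
      · exfalso; linarith
      · exact h4
    have h5 : (2 * (k - m) - 1 : ℤ) = 0 := by exact_mod_cast h3
    omega
  · have h1 : n + 1 ≤ m := h
    have h1' : (n : ℝ) + 1 ≤ m := by exact_mod_cast h1
    have hv : 2 * Real.pi * n + Real.pi ∈ Icc (f t) (f s) := by
      rw [hm, hn]
      constructor
      · linarith
      · nlinarith
    obtain ⟨x, hx, hxv⟩ := intermediate_value_Icc' hst hf hv
    obtain ⟨k, hk⟩ := hZ x hx
    rw [hk] at hxv
    have h2 : 2 * Real.pi * (2 * ((k : ℝ) - n) - 1) = 0 := by linarith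
    have h3 : 2 * ((k : ℝ) - n) - 1 = 0 := by
      rcases mul_eq_zero.mp h2 with h4 | h4
      · exfalso; linarith
      · exact h4
    have h5 : (2 * (k - n) - 1 : ℤ) = 0 := by exact_mod_cast h3
    omega

theorem LFU_two {g : ℝ → ℂ} {s t : ℝ} (hst : s ≤ t) (hg : Ok g s t) {L M : ℝ → ℝ}
    (hL : IsLift g s t L) (hM : IsLift g s t M) : L t - L s = M t - M s := by
  have h1 := LFU_const (f := fun x => L x - M x) hst (hL.1.sub hM.1) (by
    intro x hx
    have e1 := hL.2 x hx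
    have e2 := hM.2 x hx
    have hn : ((‖g x‖ : ℝ) : ℂ) ≠ 0 := by
      rw [Complex.ofReal_ne_zero, norm_ne_zero_iff]
      exact hg.2 x hx
    have e3 : Complex.exp ((L x : ℂ) * Complex.I) = Complex.exp ((M x : ℂ) * Complex.I) :=
      mul_left_cancel₀ hn (e1.symm.trans e2)
    obtain ⟨n, hn⟩ := Complex.exp_eq_exp_iff_exists_int.mp e3
    refine ⟨n, ?_⟩
    have e4 : ((L x : ℂ) - M x - 2 * Real.pi * n) * Complex.I = 0 := by
      linear_combination hn
    have e5 : (L x : ℂ) - M x - 2 * Real.pi * n = 0 := by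
      rcases mul_eq_zero.mp e4 with h | h
      · exact h
      · exact absurd h Complex.I_ne_zero
    have e6 : ((L x - M x - 2 * Real.pi * n : ℝ) : ℂ) = 0 := by
      push_cast
      exact e5
    have e7 := Complex.ofReal_eq_zero.mp e6
    linarith)

  linarith

theorem lfu_thm (h1 : S_LF2) : S_LFU := by
  intro g s t hst hg
  have hex : ∃ L, IsLift g s t L := by
    obtain ⟨L, hLc, hL⟩ := h1 (fun x _ => g x) s t 0 0 hst le_rfl
      (by
        have h2 : ContinuousOn (fun p : ℝ × ℝ => g p.1) (Icc s t ×ˢ Icc (0 : ℝ) 0) :=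
          hg.1.comp continuousOn_fst (fun p hp => hp.1)
        exact h2)
      (fun x hx y _ => hg.2 x hx)
    refine ⟨fun x => L x 0, ?_, fun x hx => hL x hx 0 ⟨le_rfl, le_rfl⟩⟩
    have h3 : ContinuousOn (fun x : ℝ => (x, (0 : ℝ))) (Icc s t) := by fun_prop
    exact hLc.comp h3 (fun x hx => ⟨hx, le_rfl, le_rfl⟩)
  refine ⟨hex, fun L hL => ?_⟩
  unfold turn
  rw [dif_pos hex]
  exact LFU_two hst hg hex.choose_spec hL

end Pool.MXT
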